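import Pool.Agent.Helper98.LogPoly.Defs

/-!
# Piece P6 (SLICE) of MP_b30792_pr

Existence of the Gaussian field with covariance `h · χ_r`, and its exponential moments.
-/

set_option autoImplicit false

namespace Pool.Agent.Helper98.LogPoly

open MeasureTheory ProbabilityTheory

/-! ### finite sums -/

theorem sum_fib {ι κ : Type*} [Fintype ι] [DecidableEq κ] (p : ι → κ) (g : ι → ℝ) (φ : κ → ℝ) :
    ∑ x ∈ Finset.univ.image p, (∑ i with p i = x, g i) * φ x = ∑ i, g i * φ (p i) := by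
  rw [← Finset.sum_fiberwise_of_maps_to (s := Finset.univ) (t := Finset.univ.image p) (g := p)
    (fun i _ => Finset.mem_image_of_mem p (Finset.mem_univ i)) (fun i => g i * φ (p i))]
  refine Finset.sum_congr rfl fun x _ => ?_
  rw [Finset.sum_mul]
  refine Finset.sum_congr rfl fun i hi => ?_
  rw [(Finset.mem_filter.mp hi).2]

theorem sum_fib₂ {ι κ : Type*} [Fintype ι] [DecidableEq κ] (p : ι → κ) (g : ι → ℝ)
    (K : κ → κ → ℝ) :
    ∑ x ∈ Finset.univ.image p, ∑ y ∈ Finset.univ.image p,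
      (∑ i with p i = x, g i) * (∑ i with p i = y, g i) * K x y =
      ∑ i, ∑ j, g i * g j * K (p i) (p j) := by
  have h1 : ∀ x, ∑ y ∈ Finset.univ.image p,
      (∑ i with p i = x, g i) * (∑ i with p i = y, g i) * K x y =
      (∑ i with p i = x, g i) * ∑ j, g j * K x (p j) := by
    intro x
    rw [← sum_fib p g (fun y => K x y), Finset.mul_sum]
    exact Finset.sum_congr rfl fun y _ => by ring
  simp_rw [h1]
  rw [sum_fib p g (fun x => ∑ j, g j * K x (p j))]
  refine Finset.sum_congr rfl fun i _ => ?_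
  rw [Finset.mul_sum]
  exact Finset.sum_congr rfl fun j _ => by ring

/-! ### positive definiteness of `h χ_r` -/

/-- the one dimensional count -/
theorem count_one (r : ℕ) (x y : ℤ) :
    (((Finset.Ioc (max x y - r) (min x y)).card : ℕ) : ℝ) = max 0 ((r : ℝ) - |((x - y : ℤ) : ℝ)|) := by
  rw [Int.card_Ioc]
  have h1 : min x y - (max x y - r) = r - |x - y| := by
    rcases le_total x y with h | h
    · rw [min_eq_left h, max_eq_right h, abs_of_nonpos (by omega)]; ring
    · rw [min_eq_right h, max_eq_left h, abs_of_nonneg (by omega)]; ring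
  rw [h1]
  rcases le_total 0 ((r : ℤ) - |x - y|) with h | h
  · have h2 : (((r : ℤ) - |x - y|).toNat : ℤ) = (r : ℤ) - |x - y| := Int.toNat_of_nonneg h
    have h3 : ((((r : ℤ) - |x - y|).toNat : ℕ) : ℝ) = (r : ℝ) - |((x - y : ℤ) : ℝ)| := by
      have := congrArg (fun z : ℤ => (z : ℝ)) h2
      push_cast at this ⊢
      exact_mod_cast this
    rw [h3, max_eq_right]
    have : (0 : ℝ) ≤ (((r : ℤ) - |x - y| : ℤ) : ℝ) := by exact_mod_cast h
    push_cast at this ⊢
    exact this
  · rw [Int.toNat_of_nonpos h]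
    rw [max_eq_left]
    · simp
    · have : (((r : ℤ) - |x - y| : ℤ) : ℝ) ≤ 0 := by exact_mod_cast h
      push_cast at this ⊢
      exact this

/-- `u ∈ box r x` iff `x - u ∈ [0,r)²` -/
noncomputable def box (r : ℕ) (x : Pt) : Finset Pt :=
  Finset.Ioc (x.1 - r) x.1 ×ˢ Finset.Ioc (x.2 - r) x.2

theorem box_inter (r : ℕ) (x y : Pt) :
    box r x ∩ box r y = Finset.Ioc (max x.1 y.1 - r) (min x.1 y.1) ×ˢ
      Finset.Ioc (max x.2 y.2 - r) (min x.2 y.2) := by
  ext u
  simp only [box, Finset.mem_inter, Finset.mem_product, Finset.mem_Ioc]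
  omega

theorem chi_sub {r : ℕ} (hr : 1 ≤ r) (x y : Pt) :
    chi r (x - y) = (1 / (r : ℝ) ^ 2) * ((box r x ∩ box r y).card : ℝ) := by
  have hr0 : (0 : ℝ) < r := by exact_mod_cast hr
  rw [box_inter, Finset.card_product, Nat.cast_mul, count_one, count_one]
  unfold chi
  have h1 : ∀ t : ℝ, max 0 (1 - t / r) = (1 / r) * max 0 (r - t) := by
    intro t
    rw [mul_max_of_nonneg _ _ (by positivity)]
    congr 1
    · simp
    · field_simp
  rw [h1, h1]
  simp only [Prod.fst_sub, Prod.snd_sub]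
  ring

theorem card_inter_eq (r : ℕ) (F : Finset Pt) {x y : Pt} (hx : x ∈ F) :
    ((box r x ∩ box r y).card : ℝ) = ∑ u ∈ F.biUnion (box r),
      (if u ∈ box r x then (1 : ℝ) else 0) * (if u ∈ box r y then (1 : ℝ) else 0) := by
  have h1 : ∀ u, (if u ∈ box r x then (1 : ℝ) else 0) * (if u ∈ box r y then (1 : ℝ) else 0) =
      if u ∈ box r x ∩ box r y then 1 else 0 := by
    intro u
    by_cases h2 : u ∈ box r x <;> by_cases h3 : u ∈ box r y <;> simp [h2, h3]
  simp_rw [h1]
  rw [Finset.sum_ite_mem, Finset.sum_const, nsmul_eq_mul, mul_one]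
  congr 2
  ext u
  simp only [Finset.mem_inter, Finset.mem_biUnion]
  constructor
  · intro h; exact ⟨⟨x, hx, h.1⟩, h⟩
  · intro h; exact h.2

theorem posDefKer_chi {h : Pt → ℝ} (hh : PosDefKer h) {r : ℕ} (hr : 1 ≤ r) :
    PosDefKer (fun x => h x * chi r x) := by
  refine ⟨fun x => ?_, fun F c => ?_⟩
  · simp only []
    rw [hh.1]
    congr 1
    unfold chi
    simp
  · have h1 : ∑ x ∈ F, ∑ y ∈ F, c x * c y * (h (x - y) * chi r (x - y)) =
        (1 / (r : ℝ) ^ 2) * ∑ u ∈ F.biUnion (box r), ∑ x ∈ F, ∑ y ∈ F,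
          (c x * (if u ∈ box r x then (1 : ℝ) else 0)) *
            (c y * (if u ∈ box r y then (1 : ℝ) else 0)) * h (x - y) := by
      rw [Finset.sum_comm (s := F.biUnion (box r)), Finset.mul_sum]
      refine Finset.sum_congr rfl fun x hx => ?_
      rw [Finset.sum_comm, Finset.mul_sum]
      refine Finset.sum_congr rfl fun y _ => ?_
      rw [chi_sub hr, card_inter_eq r F hx, Finset.mul_sum, Finset.mul_sum, Finset.mul_sum,
        Finset.mul_sum]
      refine Finset.sum_congr rfl fun u _ => ?_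
      ring
    simp only []
    rw [h1]
    refine mul_nonneg (by positivity) (Finset.sum_nonneg fun u _ => ?_)
    exact hh.2 F (fun x => c x * (if u ∈ box r x then (1 : ℝ) else 0))

/-! ### linear combinations of independent standard Gaussians -/

theorem gauss_sum {K : Type*} [DecidableEq K] (S : Finset K) (d : K → ℝ) :
    (Measure.infinitePi (fun _ : K => gaussianReal 0 1)).map (fun η => ∑ k ∈ S, d k * η k) =
      gaussianReal 0 (∑ k ∈ S, d k ^ 2).toNNReal := by
  induction S using Finset.induction_on with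
  | empty =>
    simp only [Finset.sum_empty, Real.toNNReal_zero, gaussianReal_zero_var]
    rw [Measure.map_const, measure_univ, one_smul]
  | insert k S hk ih =>
    have hind : iIndepFun (fun (k : K) (η : K → ℝ) => d k * η k)
        (Measure.infinitePi (fun _ : K => gaussianReal 0 1)) :=
      iIndepFun_infinitePi (X := fun k (x : ℝ) => d k * x) (fun k => by fun_prop)
    have h1 : IndepFun (∑ j ∈ S, fun η : K → ℝ => d j * η j) (fun η => d k * η k)
        (Measure.infinitePi (fun _ : K => gaussianReal 0 1)) :=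
      hind.indepFun_finsetSum_of_notMem (fun j => by fun_prop) hk
    have h2 : (Measure.infinitePi (fun _ : K => gaussianReal 0 1)).map
        (fun η => d k * η k) = gaussianReal 0 (d k ^ 2).toNNReal := by
      have h3 := (measurePreserving_eval_infinitePi (fun _ : K => gaussianReal 0 1) k).map_eq
      have h4 : (fun η : K → ℝ => d k * η k) = (fun x : ℝ => d k * x) ∘ Function.eval k := rfl
      rw [h4, ← Measure.map_map (by fun_prop) (by fun_prop), h3, gaussianReal_map_const_mul]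
      congr 1
      · ring
      · rw [mul_one]
        ext
        simp [Real.coe_toNNReal _ (sq_nonneg (d k))]
    have h5 : (∑ j ∈ S, fun η : K → ℝ => d j * η j) = fun η => ∑ j ∈ S, d j * η j := by
      funext η; simp
    rw [h5] at h1
    have h6 := gaussianReal_add_gaussianReal_of_indepFun h1 ih h2
    have h7 : (fun η : K → ℝ => ∑ j ∈ insert k S, d j * η j) =
        (fun η => ∑ j ∈ S, d j * η j) + fun η => d k * η k := by
      funext η
      rw [Finset.sum_insert hk, Pi.add_apply, add_comm]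
    rw [h7, h6, Finset.sum_insert hk, add_zero,
      Real.toNNReal_add (sq_nonneg _) (Finset.sum_nonneg fun _ _ => sq_nonneg _), add_comm]

theorem gauss_sum_fin {K ι : Type*} [Fintype ι] [DecidableEq K] (p : ι → K) (g : ι → ℝ) :
    (Measure.infinitePi (fun _ : K => gaussianReal 0 1)).map (fun η => ∑ i, g i * η (p i)) =
      gaussianReal 0 (∑ i, ∑ j, g i * g j * (if p i = p j then (1 : ℝ) else 0)).toNNReal := by
  have h1 : (fun η : K → ℝ => ∑ i, g i * η (p i)) =
      fun η => ∑ k ∈ Finset.univ.image p, (∑ i with p i = k, g i) * η k := by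
    funext η
    rw [sum_fib]
  rw [h1, gauss_sum, ← sum_fib₂ p g (fun x y => if x = y then (1 : ℝ) else 0)]
  congr 2
  refine Finset.sum_congr rfl fun x hx => ?_
  simp only [mul_ite, mul_one, mul_zero]
  rw [Finset.sum_ite_eq, if_pos hx, sq]

/-- the embedding of `[0,r)²` -/
def emb {r : ℕ} (p : Fin r × Fin r) : Pt := ((p.1 : ℕ), (p.2 : ℕ))

theorem emb_inj {r : ℕ} : Function.Injective (emb (r := r)) := by
  intro p q h
  simp only [emb, Prod.mk.injEq, Nat.cast_inj] at h
  exact Prod.ext (Fin.ext h.1) (Fin.ext h.2)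

theorem image_box (r : ℕ) (x : Pt) :
    (Finset.univ.image fun p : Fin r × Fin r => x - emb p) = box r x := by
  ext u
  simp only [Finset.mem_image, Finset.mem_univ, true_and, box, Finset.mem_product, Finset.mem_Ioc,
    emb]
  constructor
  · rintro ⟨p, rfl⟩
    have h1 := p.1.2
    have h2 := p.2.2
    simp only [Prod.fst_sub, Prod.snd_sub]
    omega
  · rintro ⟨⟨h1, h2⟩, h3, h4⟩
    refine ⟨(⟨(x.1 - u.1).toNat, by omega⟩, ⟨(x.2 - u.2).toNat, by omega⟩), ?_⟩
    apply Prod.ext
    · simp only [Prod.fst_sub]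
      omega
    · simp only [Prod.snd_sub]
      omega

theorem count_pairs (r : ℕ) (x y : Pt) :
    ∑ p : Fin r × Fin r, ∑ q : Fin r × Fin r, (if x - emb p = y - emb q then (1 : ℝ) else 0) =
      ((box r x ∩ box r y).card : ℝ) := by
  have hinj : ∀ z : Pt, Function.Injective fun p : Fin r × Fin r => z - emb p := by
    intro z p q h
    exact emb_inj (sub_right_injective h)
  have h1 : ∀ u : Pt, ∑ q : Fin r × Fin r, (if u = y - emb q then (1 : ℝ) else 0) =
      if u ∈ box r y then 1 else 0 := by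
    intro u
    have h2 := Finset.sum_image (s := (Finset.univ : Finset (Fin r × Fin r)))
      (g := fun q => y - emb q) (f := fun v => if u = v then (1 : ℝ) else 0)
      (fun a _ b _ h => hinj y h)
    rw [← h2, image_box, Finset.sum_ite_eq]
  simp_rw [h1]
  have h2 := Finset.sum_image (s := (Finset.univ : Finset (Fin r × Fin r)))
    (g := fun q => x - emb q) (f := fun v => if v ∈ box r y then (1 : ℝ) else 0)
    (fun a _ b _ h => hinj x h)
  rw [← h2, image_box, Finset.sum_ite_mem, Finset.sum_const, nsmul_eq_mul, mul_one]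

theorem exists_slice {h : Pt → ℝ} (hh : PosDefKer h) {r : ℕ} (hr : 1 ≤ r) :
    ∃ ν : Measure (Pt → ℝ), IsProbabilityMeasure ν ∧ GaussSlice ν (fun x => h x * chi r x) := by
  classical
  set M : Matrix (Fin r × Fin r) (Fin r × Fin r) ℝ :=
    Matrix.of fun p q => h (emb p - emb q) with hM
  have hMps : M.PosSemidef := by
    refine Matrix.PosSemidef.of_dotProduct_mulVec_nonneg ?_ fun x => ?_
    · ext p q
      simp only [hM, Matrix.conjTranspose_apply, Matrix.of_apply, star_trivial]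
      rw [← neg_sub, hh.1]
    · have h1 : star x ⬝ᵥ M.mulVec x = ∑ i, ∑ j, x i * x j * h (emb i - emb j) := by
        simp only [dotProduct, Matrix.mulVec, Pi.star_apply, star_trivial, hM, Matrix.of_apply,
          Finset.mul_sum]
        exact Finset.sum_congr rfl fun i _ => Finset.sum_congr rfl fun j _ => by ring
      rw [h1, ← sum_fib₂ emb x (fun a b => h (a - b))]
      exact hh.2 _ _
  obtain ⟨B, hB⟩ : ∃ B : Matrix (Fin r × Fin r) (Fin r × Fin r) ℝ,
      ∀ p q, h (emb p - emb q) = ∑ j, B j p * B j q := by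
    open scoped MatrixOrder in
    obtain ⟨B, hB⟩ := CStarAlgebra.nonneg_iff_eq_star_mul_self.mp hMps.nonneg
    refine ⟨B, fun p q => ?_⟩
    have h1 : M p q = (star B * B) p q := by rw [← hB]
    rw [hM, Matrix.of_apply, Matrix.mul_apply] at h1
    rw [h1]
    refine Finset.sum_congr rfl fun j _ => ?_
    rw [Matrix.star_apply, star_trivial]
  set P : Measure (Pt × (Fin r × Fin r) → ℝ) :=
    Measure.infinitePi (fun _ : Pt × (Fin r × Fin r) => gaussianReal 0 1) with hP
  set Φ : (Pt × (Fin r × Fin r) → ℝ) → (Pt → ℝ) := fun η x =>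
    (1 / (r : ℝ)) * ∑ p : Fin r × Fin r, ∑ j : Fin r × Fin r, B j p * η (x - emb p, j) with hΦ
  have hΦm : Measurable Φ := by
    refine measurable_pi_lambda _ fun x => ?_
    simp only [hΦ]
    fun_prop
  refine ⟨P.map Φ, Measure.isProbabilityMeasure_map hΦm.aemeasurable, fun F c => ?_⟩
  rw [Measure.map_map (by fun_prop) hΦm]
  have h1 : ((fun ω : Pt → ℝ => ∑ x ∈ F, c x * ω x) ∘ Φ) = fun η =>
      ∑ i : F × ((Fin r × Fin r) × (Fin r × Fin r)),
        (c i.1 * (1 / (r : ℝ)) * B i.2.2 i.2.1) * η ((i.1 : Pt) - emb i.2.1, i.2.2) := by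
    funext η
    rw [Fintype.sum_prod_type]
    simp only [Function.comp, hΦ]
    have hs := Finset.sum_coe_sort F (fun x => c x * (1 / (r : ℝ) * ∑ p : Fin r × Fin r,
      ∑ j : Fin r × Fin r, B j p * η (x - emb p, j)))
    rw [← hs]
    refine Finset.sum_congr rfl fun x _ => ?_
    rw [Fintype.sum_prod_type (f := fun q : (Fin r × Fin r) × (Fin r × Fin r) =>
      c x * (1 / (r : ℝ)) * B q.2 q.1 * η ((x : Pt) - emb q.1, q.2)), ← mul_assoc, Finset.mul_sum]
    refine Finset.sum_congr rfl fun p _ => ?_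
    rw [Finset.mul_sum]
    refine Finset.sum_congr rfl fun j _ => ?_
    ring
  rw [h1, hP, gauss_sum_fin (fun i : F × ((Fin r × Fin r) × (Fin r × Fin r)) =>
    ((i.1 : Pt) - emb i.2.1, i.2.2))]
  have hR : ∑ x ∈ F, ∑ y ∈ F, c x * c y * (h (x - y) * chi r (x - y)) =
      ∑ x : F, ∑ y : F, c x * c y * (h ((x : Pt) - y) * chi r ((x : Pt) - y)) := by
    rw [← Finset.sum_coe_sort F (fun x => ∑ y ∈ F, c x * c y * (h (x - y) * chi r (x - y)))]
    refine Finset.sum_congr rfl fun x _ => ?_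
    rw [← Finset.sum_coe_sort F (fun y => c x * c y * (h ((x : Pt) - y) * chi r ((x : Pt) - y)))]
  rw [hR]
  congr 2
  rw [Fintype.sum_prod_type]
  refine Finset.sum_congr rfl fun x _ => ?_
  have h2 : ∀ i : (Fin r × Fin r) × (Fin r × Fin r),
      ∑ j : F × ((Fin r × Fin r) × (Fin r × Fin r)),
        (c x * (1 / (r : ℝ)) * B i.2 i.1) * (c j.1 * (1 / (r : ℝ)) * B j.2.2 j.2.1) *
          (if ((x : Pt) - emb i.1, i.2) = ((j.1 : Pt) - emb j.2.1, j.2.2) then (1 : ℝ) else 0) =
      ∑ y : F, ∑ q : Fin r × Fin r, (c x * c y * (1 / (r : ℝ) ^ 2)) * (B i.2 i.1 * B i.2 q) *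
        (if (x : Pt) - emb i.1 = (y : Pt) - emb q then (1 : ℝ) else 0) := by
    intro i
    rw [Fintype.sum_prod_type (f := fun j : F × ((Fin r × Fin r) × (Fin r × Fin r)) =>
      (c x * (1 / (r : ℝ)) * B i.2 i.1) * (c j.1 * (1 / (r : ℝ)) * B j.2.2 j.2.1) *
          (if ((x : Pt) - emb i.1, i.2) = ((j.1 : Pt) - emb j.2.1, j.2.2) then (1 : ℝ) else 0))]
    refine Finset.sum_congr rfl fun y _ => ?_
    rw [Fintype.sum_prod_type (f := fun j : (Fin r × Fin r) × (Fin r × Fin r) =>
      (c x * (1 / (r : ℝ)) * B i.2 i.1) * (c y * (1 / (r : ℝ)) * B j.2 j.1) *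
          (if ((x : Pt) - emb i.1, i.2) = ((y : Pt) - emb j.1, j.2) then (1 : ℝ) else 0))]
    refine Finset.sum_congr rfl fun q _ => ?_
    rw [Finset.sum_eq_single i.2]
    · simp only [Prod.mk.injEq, and_true]
      ring
    · intro j _ hj
      rw [if_neg, mul_zero]
      simp only [Prod.mk.injEq, not_and]
      intro _ h3
      exact hj h3.symm
    · intro h3
      exact absurd (Finset.mem_univ _) h3
  simp only [h2]
  rw [Finset.sum_comm]
  refine Finset.sum_congr rfl fun y _ => ?_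
  rw [Fintype.sum_prod_type (f := fun i : (Fin r × Fin r) × (Fin r × Fin r) =>
    ∑ q : Fin r × Fin r, (c x * c y * (1 / (r : ℝ) ^ 2)) * (B i.2 i.1 * B i.2 q) *
        (if (x : Pt) - emb i.1 = (y : Pt) - emb q then (1 : ℝ) else 0)), chi_sub hr, ← count_pairs]
  have h3 : ∀ p : Fin r × Fin r, ∑ j : Fin r × Fin r, ∑ q : Fin r × Fin r,
      (c x * c y * (1 / (r : ℝ) ^ 2)) * (B j p * B j q) *
        (if (x : Pt) - emb p = (y : Pt) - emb q then (1 : ℝ) else 0) =
      ∑ q : Fin r × Fin r, (c x * c y * (1 / (r : ℝ) ^ 2)) * h ((x : Pt) - y) *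
        (if (x : Pt) - emb p = (y : Pt) - emb q then (1 : ℝ) else 0) := by
    intro p
    rw [Finset.sum_comm]
    refine Finset.sum_congr rfl fun q _ => ?_
    by_cases h4 : (x : Pt) - emb p = (y : Pt) - emb q
    · simp only [h4, if_true, mul_one]
      rw [← Finset.mul_sum, ← hB]
      have h5 : (x : Pt) - y = emb p - emb q := by
        have := h4
        rw [sub_eq_sub_iff_add_eq_add] at this ⊢
        rw [this]; ring
      rw [h5]
    · simp only [h4, if_false, mul_zero, Finset.sum_const_zero]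
  simp only [h3]
  rw [Finset.mul_sum, Finset.mul_sum, Finset.mul_sum]
  refine Finset.sum_congr rfl fun p _ => ?_
  rw [Finset.mul_sum, Finset.mul_sum, Finset.mul_sum]
  refine Finset.sum_congr rfl fun q _ => ?_
  ring

/-! ### exponential moments -/

theorem GaussSlice.map_fin {H : Pt → ℝ} {ν : Measure (Pt → ℝ)} (hν : GaussSlice ν H)
    {ι : Type*} [Fintype ι] (p : ι → Pt) (c : ι → ℝ) :
    ν.map (fun ω => ∑ i, c i * ω (p i)) =
      gaussianReal 0 (∑ i, ∑ j, c i * c j * H (p i - p j)).toNNReal := by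
  have h1 : (fun ω : Pt → ℝ => ∑ i, c i * ω (p i)) =
      fun ω => ∑ k ∈ Finset.univ.image p, (∑ i with p i = k, c i) * ω k := by
    funext ω
    rw [sum_fib]
  rw [h1, hν, ← sum_fib₂ p c (fun x y => H (x - y))]

theorem PosDefKer.nonneg_fin {H : Pt → ℝ} (hH : PosDefKer H) {ι : Type*} [Fintype ι] (p : ι → Pt)
    (c : ι → ℝ) : 0 ≤ ∑ i, ∑ j, c i * c j * H (p i - p j) := by
  rw [← sum_fib₂ p c (fun x y => H (x - y))]
  exact hH.2 _ _

theorem exp_int {Ω : Type*} [MeasurableSpace Ω] {ν : Measure Ω} {L : Ω → ℝ} (hL : Measurable L)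
    {V : ℝ} (hV : 0 ≤ V) (h : ν.map L = gaussianReal 0 V.toNNReal) :
    Integrable (fun ω => Real.exp (L ω)) ν ∧ ∫ ω, Real.exp (L ω) ∂ν = Real.exp (V / 2) := by
  constructor
  · have h1 : Integrable (fun x : ℝ => Real.exp (1 * x)) (ν.map L) := by
      rw [h]; exact integrable_exp_mul_gaussianReal 1
    have h2 := h1.comp_measurable hL
    simpa [Function.comp_def] using h2
  · have h1 := mgf_gaussianReal h 1
    simp only [mgf, one_mul, mul_one, one_pow, Real.coe_toNNReal _ hV, zero_add] at h1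
    exact h1

section moments

variable {H : Pt → ℝ} {ν : Measure (Pt → ℝ)}

theorem var3 (hH : PosDefKer H) (H0 : H 0 = 1) (x y z : Pt) (a b c : ℝ) :
    ∑ i : Fin 3, ∑ j : Fin 3, ![a, b, c] i * ![a, b, c] j * H (![x, y, z] i - ![x, y, z] j) =
      a ^ 2 + b ^ 2 + c ^ 2 + 2 * a * b * H (x - y) + 2 * a * c * H (x - z) +
        2 * b * c * H (y - z) := by
  have h1 : H (y - x) = H (x - y) := by rw [← neg_sub, hH.1]
  have h2 : H (z - x) = H (x - z) := by rw [← neg_sub, hH.1]
  have h3 : H (z - y) = H (y - z) := by rw [← neg_sub, hH.1]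
  simp only [Fin.sum_univ_three, Matrix.cons_val_zero, Matrix.cons_val_one, Matrix.cons_val,
    sub_self, H0, h1, h2, h3]
  ring

theorem exp3 (hν : GaussSlice ν H) (hH : PosDefKer H) (H0 : H 0 = 1) (x y z : Pt) (a b c : ℝ) :
    Integrable (fun ω : Pt → ℝ => Real.exp (a * ω x + b * ω y + c * ω z)) ν ∧
      ∫ ω, Real.exp (a * ω x + b * ω y + c * ω z) ∂ν =
        Real.exp ((a ^ 2 + b ^ 2 + c ^ 2 + 2 * a * b * H (x - y) + 2 * a * c * H (x - z) +
        2 * b * c * H (y - z)) / 2) := by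
  have h1 := hν.map_fin ![x, y, z] ![a, b, c]
  have h2 := hH.nonneg_fin ![x, y, z] ![a, b, c]
  rw [var3 hH H0] at h1 h2
  have h3 : (fun ω : Pt → ℝ => ∑ i, ![a, b, c] i * ω (![x, y, z] i)) =
      fun ω => a * ω x + b * ω y + c * ω z := by
    funext ω
    simp only [Fin.sum_univ_three, Matrix.cons_val_zero, Matrix.cons_val_one, Matrix.cons_val]
  rw [h3] at h1
  exact exp_int (by fun_prop) h2 h1

theorem slice_int0 [IsProbabilityMeasure ν] (hν : GaussSlice ν H) (hH : PosDefKer H)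
    (H0 : H 0 = 1) (β : ℝ) (x : Pt) :
    Integrable (fun ω : Pt → ℝ => Real.exp (β * ω x - β ^ 2 / 2)) ν ∧
      ∫ ω, Real.exp (β * ω x - β ^ 2 / 2) ∂ν = 1 := by
  obtain ⟨h1, h2⟩ := exp3 hν hH H0 x x x β 0 0
  have h3 : (fun ω : Pt → ℝ => Real.exp (β * ω x - β ^ 2 / 2)) =
      fun ω => Real.exp (β * ω x + 0 * ω x + 0 * ω x) * Real.exp (-(β ^ 2 / 2)) := by
    funext ω
    rw [← Real.exp_add]
    congr 1
    ring
  rw [h3]
  refine ⟨h1.mul_const _, ?_⟩
  rw [integral_mul_const, h2, ← Real.exp_add]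
  rw [← Real.exp_zero]
  congr 1
  ring

/-- the first two moments under the tilted law -/
theorem tilt_moments [IsProbabilityMeasure ν] (hν : GaussSlice ν H) (hH : PosDefKer H)
    (H0 : H 0 = 1) (β : ℝ) (x y z : Pt) (b c : ℝ) :
    (Integrable (fun ω : Pt → ℝ => Real.exp (β * ω x - β ^ 2 / 2) * (b * ω y + c * ω z)) ν ∧
      ∫ ω, Real.exp (β * ω x - β ^ 2 / 2) * (b * ω y + c * ω z) ∂ν =
        β * (b * H (x - y) + c * H (x - z))) ∧
    (Integrable (fun ω : Pt → ℝ => Real.exp (β * ω x - β ^ 2 / 2) * (b * ω y + c * ω z) ^ 2) ν ∧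
      ∫ ω, Real.exp (β * ω x - β ^ 2 / 2) * (b * ω y + c * ω z) ^ 2 ∂ν =
        (b ^ 2 + c ^ 2 + 2 * b * c * H (y - z)) + (β * (b * H (x - y) + c * H (x - z))) ^ 2) := by
  set f : (Pt → ℝ) → ℝ := fun ω => β * ω x with hf
  set Y : (Pt → ℝ) → ℝ := fun ω => b * ω y + c * ω z with hY
  set m : ℝ := β * (b * H (x - y) + c * H (x - z)) with hm
  set v : ℝ := b ^ 2 + c ^ 2 + 2 * b * c * H (y - z) with hv
  have hv0 : 0 ≤ v := by
    have h2 := hH.nonneg_fin ![x, y, z] ![0, b, c]
    rw [var3 hH H0] at h2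
    rw [hv]; linarith
  have hfi : Integrable (fun ω => Real.exp (f ω)) ν ∧ ∫ ω, Real.exp (f ω) ∂ν =
      Real.exp (β ^ 2 / 2) := by
    obtain ⟨h1, h2⟩ := exp3 hν hH H0 x x x β 0 0
    simp only [zero_mul, add_zero] at h1 h2
    refine ⟨h1, ?_⟩
    rw [hf, h2]
    congr 1
    ring
  have hmgf : ∀ s : ℝ, Integrable (fun ω => Real.exp (s * Y ω)) (ν.tilted f) ∧
      mgf Y (ν.tilted f) s = Real.exp (m * s + v * s ^ 2 / 2) := by
    intro s
    obtain ⟨h1, h2⟩ := exp3 hν hH H0 x y z β (s * b) (s * c)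
    have h3 : (fun ω : Pt → ℝ => Real.exp (f ω) • Real.exp (s * Y ω)) =
        fun ω => Real.exp (β * ω x + s * b * ω y + s * c * ω z) := by
      funext ω
      rw [smul_eq_mul, ← Real.exp_add]
      congr 1
      simp only [hf, hY]
      ring
    refine ⟨(integrable_tilted_iff hfi.1 _).mpr (by rw [h3]; exact h1), ?_⟩
    unfold mgf
    rw [integral_tilted]
    simp only [hfi.2]
    have h4 : (fun ω : Pt → ℝ => (Real.exp (f ω) / Real.exp (β ^ 2 / 2)) • Real.exp (s * Y ω)) =
        fun ω => Real.exp (β * ω x + s * b * ω y + s * c * ω z) * (Real.exp (β ^ 2 / 2))⁻¹ := by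
      funext ω
      have := congrFun h3 ω
      simp only [smul_eq_mul] at this ⊢
      rw [← this]
      ring
    rw [h4, integral_mul_const, h2, ← Real.exp_neg, ← Real.exp_add]
    congr 1
    rw [hm, hv]
    ring
  have : IsProbabilityMeasure (ν.tilted f) := isProbabilityMeasure_tilted hfi.1
  have hset : integrableExpSet Y (ν.tilted f) = Set.univ := by
    ext s
    simp only [Set.mem_univ, iff_true]
    exact (hmgf s).1
  have hint : (0 : ℝ) ∈ interior (integrableExpSet Y (ν.tilted f)) := by rw [hset]; simp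
  have hset' : (0 : ℝ) ∈ interior (integrableExpSet id (gaussianReal m v.toNNReal)) := by
    rw [integrableExpSet_id_gaussianReal]; simp
  have heq : mgf Y (ν.tilted f) = mgf id (gaussianReal m v.toNNReal) := by
    rw [mgf_id_gaussianReal]
    funext s
    rw [(hmgf s).2, Real.coe_toNNReal _ hv0]
  have hmom : ∀ n : ℕ, ∫ ω, Y ω ^ n ∂(ν.tilted f) = ∫ t, t ^ n ∂(gaussianReal m v.toNNReal) := by
    intro n
    have h1 := iteratedDeriv_mgf_zero hint n
    have h2 := iteratedDeriv_mgf_zero hset' n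
    rw [heq] at h1
    rw [h1] at h2
    simpa using h2
  have hm1 : ∫ t, t ∂(gaussianReal m v.toNNReal) = m := integral_id_gaussianReal
  have hm2 : ∫ t, t ^ 2 ∂(gaussianReal m v.toNNReal) = v + m ^ 2 := by
    have h1 := variance_fun_id_gaussianReal (μ := m) (v := v.toNNReal)
    have h2 : MemLp (fun t : ℝ => t) 2 (gaussianReal m v.toNNReal) := memLp_id_gaussianReal 2
    rw [variance_eq_sub h2] at h1
    simp only [Pi.pow_apply, hm1, Real.coe_toNNReal _ hv0] at h1
    linarith
  have htr : ∀ g : (Pt → ℝ) → ℝ, Integrable g (ν.tilted f) →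
      Integrable (fun ω => Real.exp (β * ω x - β ^ 2 / 2) * g ω) ν ∧
      ∫ ω, Real.exp (β * ω x - β ^ 2 / 2) * g ω ∂ν = ∫ ω, g ω ∂(ν.tilted f) := by
    intro g hg
    have h1 := (integrable_tilted_iff hfi.1 g).mp hg
    have h2 : (fun ω : Pt → ℝ => Real.exp (β * ω x - β ^ 2 / 2) * g ω) =
        fun ω => (Real.exp (f ω) • g ω) * (Real.exp (β ^ 2 / 2))⁻¹ := by
      funext ω
      rw [Real.exp_sub, smul_eq_mul]
      simp only [hf]
      ring
    refine ⟨by rw [h2]; exact h1.mul_const _, ?_⟩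
    rw [integral_tilted]
    simp only [hfi.2]
    refine integral_congr_ae (Filter.Eventually.of_forall fun ω => ?_)
    simp only [smul_eq_mul, Real.exp_sub, hf]
  have hYi : Integrable Y (ν.tilted f) := by
    have := memLp_of_mem_interior_integrableExpSet hint 1
    exact memLp_one_iff_integrable.mp (by simpa using this)
  have hY2 : Integrable (fun ω => Y ω ^ 2) (ν.tilted f) := by
    have := memLp_of_mem_interior_integrableExpSet hint 2
    exact (by simpa using this : MemLp Y 2 (ν.tilted f)).integrable_sq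
  refine ⟨⟨(htr Y hYi).1, ?_⟩, (htr _ hY2).1, ?_⟩
  · rw [(htr Y hYi).2]
    have := hmom 1
    simp only [pow_one] at this
    rw [this, hm1]
  · rw [(htr _ hY2).2, hmom 2, hm2]

theorem slice_int1 [IsProbabilityMeasure ν] (hν : GaussSlice ν H) (hH : PosDefKer H)
    (H0 : H 0 = 1) (β : ℝ) (x y : Pt) :
    Integrable (fun ω : Pt → ℝ => Real.exp (β * ω x - β ^ 2 / 2) * ω y) ν ∧
      ∫ ω, Real.exp (β * ω x - β ^ 2 / 2) * ω y ∂ν = β * H (x - y) := by
  have h := (tilt_moments hν hH H0 β x y y 1 0).1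
  simpa using h

theorem slice_int2 [IsProbabilityMeasure ν] (hν : GaussSlice ν H) (hH : PosDefKer H)
    (H0 : H 0 = 1) (β : ℝ) (x y z : Pt) :
    Integrable (fun ω : Pt → ℝ => Real.exp (β * ω x - β ^ 2 / 2) * (ω y * ω z)) ν ∧
      ∫ ω, Real.exp (β * ω x - β ^ 2 / 2) * (ω y * ω z) ∂ν =
        H (y - z) + β ^ 2 * H (x - y) * H (x - z) := by
  obtain ⟨a1, a2⟩ := (tilt_moments hν hH H0 β x y z 1 1).2
  obtain ⟨b1, b2⟩ := (tilt_moments hν hH H0 β x y z 1 0).2
  obtain ⟨c1, c2⟩ := (tilt_moments hν hH H0 β x y z 0 1).2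
  have h1 : (fun ω : Pt → ℝ => Real.exp (β * ω x - β ^ 2 / 2) * (ω y * ω z)) = fun ω =>
      ((Real.exp (β * ω x - β ^ 2 / 2) * (1 * ω y + 1 * ω z) ^ 2 -
        Real.exp (β * ω x - β ^ 2 / 2) * (1 * ω y + 0 * ω z) ^ 2) -
        Real.exp (β * ω x - β ^ 2 / 2) * (0 * ω y + 1 * ω z) ^ 2) * (1 / 2) := by
    funext ω
    ring
  rw [h1]
  refine ⟨((a1.sub b1).sub c1).mul_const _, ?_⟩
  have hab : Integrable (fun ω : Pt → ℝ =>
      Real.exp (β * ω x - β ^ 2 / 2) * (1 * ω y + 1 * ω z) ^ 2 -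
        Real.exp (β * ω x - β ^ 2 / 2) * (1 * ω y + 0 * ω z) ^ 2) ν := a1.sub b1
  rw [integral_mul_const, integral_sub hab c1, integral_sub a1 b1, a2, b2, c2]
  ring

end moments

end Pool.Agent.Helper98.LogPoly
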